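import Pool.Agent.BES.Stmts
import Pool.Agent.Helper94_BEB.COF

/-!
# Row GCF (squad BES, MP_be01ff_an): a general criterion for the space H^1_0
-/

set_option autoImplicit false

namespace Pool.Agent.BES.H62

open Set Filter Topology MeasureTheory
open scoped InnerProductSpace ENNReal
open Pool.Agent.BE01 Pool.Agent.BES
open Pool.Agent.BEB.H94 (ph ph_smooth ph_nonneg ph_le_one ph_zero ph_one ph_bd)

noncomputable section

/-- dominated convergence in `L²` -/
theorem lp_lim {A E : Type*} [MeasurableSpace A] [NormedAddCommGroup E] {μ : Measure A}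
    (f : ℕ → A → E) (g : A → E) (hf : ∀ n, MemLp (f n) 2 μ)
    (hg : MemLp g 2 μ) (B : A → ℝ) (hB : MemLp B 2 μ) (hb : ∀ n, ∀ᵐ x ∂μ, ‖f n x - g x‖ ≤ B x)
    (hl : ∀ᵐ x ∂μ, Tendsto (fun n => f n x) atTop (𝓝 (g x))) :
    Tendsto (fun n => (hf n).toLp (f n)) atTop (𝓝 (hg.toLp g)) := by
  rw [Lp.tendsto_Lp_iff_tendsto_eLpNorm'']
  have h5 : ∀ n, eLpNorm (f n - g) 2 μ = (∫⁻ x, ‖f n x - g x‖ₑ ^ (2 : ℝ) ∂μ) ^ (1 / (2 : ℝ)) := by
    intro n
    rw [eLpNorm_eq_lintegral_rpow_enorm_toReal (by simp) (by simp)]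
    have : (2 : ℝ≥0∞).toReal = 2 := by simp
    rw [this]
    rfl
  simp only [h5]
  have h6 : Tendsto (fun n => ∫⁻ x, ‖f n x - g x‖ₑ ^ (2 : ℝ) ∂μ) atTop (𝓝 (∫⁻ x, 0 ∂μ)) := by
    refine tendsto_lintegral_of_dominated_convergence' (fun x => ‖B x‖ₑ ^ (2 : ℝ))
      ?_ ?_ ?_ ?_
    · intro n
      exact (((hf n).1.sub hg.1).enorm).pow_const _
    · intro n
      filter_upwards [hb n] with x hx
      refine ENNReal.rpow_le_rpow ?_ (by norm_num)
      rw [← ofReal_norm_eq_enorm, ← ofReal_norm_eq_enorm]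
      exact ENNReal.ofReal_le_ofReal (hx.trans (le_abs_self _))
    · have h7 := (eLpNorm_lt_top_iff_lintegral_rpow_enorm_lt_top (p := 2) (by simp) (by simp)).1
        hB.2
      have : (2 : ℝ≥0∞).toReal = 2 := by simp
      rw [this] at h7
      exact h7.ne
    · filter_upwards [hl] with x hx
      have h7 : Tendsto (fun n => f n x - g x) atTop (𝓝 0) := by
        have := hx.sub_const (g x)
        rwa [sub_self] at this
      have h8 : Tendsto (fun n => ‖f n x - g x‖ₑ) atTop (𝓝 0) := by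
        have := (continuous_enorm.tendsto (0 : E)).comp h7
        rwa [enorm_zero] at this
      have h9 := (ENNReal.continuous_rpow_const (y := (2 : ℝ))).tendsto 0
      rw [ENNReal.zero_rpow_of_pos (by norm_num)] at h9
      exact h9.comp h8
  rw [lintegral_zero] at h6
  have h9 := (ENNReal.continuous_rpow_const (y := (1 / 2 : ℝ))).tendsto 0
  rw [ENNReal.zero_rpow_of_pos (by norm_num)] at h9
  exact h9.comp h6

theorem gcf : GcfStmt := by
  intro d Ω δ v C hΩ hδ hv hpos hcomp hbd mv mδ mg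
  classical
  have hO := hΩ.1
  obtain ⟨K, hK, hKb⟩ := ph_bd
  let V : ℕ → En d → ℝ := fun n x => if x ∈ Ω then ph n (δ x) * v x else 0
  let Kn : ℕ → Set (En d) := fun n => {x | x ∈ Ω ∧ 1 / ((n : ℝ) + 1) ≤ δ x}
  have hKc : ∀ n, IsCompact (Kn n) := fun n => hcomp _ (by positivity)
  have hV0 : ∀ n x, x ∉ Kn n → V n x = 0 := by
    intro n x hx
    show (if x ∈ Ω then ph n (δ x) * v x else 0) = 0
    split_ifs with h
    · have h1 : δ x < 1 / ((n : ℝ) + 1) := not_le.1 (fun h2 => hx ⟨h, h2⟩)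
      have hn : (0 : ℝ) < (n : ℝ) + 1 := by positivity
      rw [lt_div_iff₀ hn] at h1
      rw [ph_zero n _ (by linarith), zero_mul]
    · rfl
  have hVe : ∀ n x, x ∈ Ω → V n =ᶠ[𝓝 x] fun y => ph n (δ y) * v y := by
    intro n x hx
    filter_upwards [hO.mem_nhds hx] with y hy
    exact if_pos hy
  have hVs : ∀ n, ContDiff ℝ ((⊤ : ℕ∞) : WithTop ℕ∞) (V n) := by
    intro n
    rw [contDiff_iff_contDiffAt]
    intro x
    by_cases hx : x ∈ Ω
    · have h1 : ContDiffAt ℝ ((⊤ : ℕ∞) : WithTop ℕ∞) (fun y => ph n (δ y) * v y) x :=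
        ((ph_smooth n).contDiffAt.comp x (hδ.contDiffAt (hO.mem_nhds hx))).mul
          (hv.contDiffAt (hO.mem_nhds hx))
      exact h1.congr_of_eventuallyEq (hVe n x hx)
    · have h1 : V n =ᶠ[𝓝 x] fun _ => 0 := by
        filter_upwards [(hKc n).isClosed.isOpen_compl.mem_nhds (fun h => hx h.1)] with y hy
        exact hV0 n y hy
      exact contDiffAt_const.congr_of_eventuallyEq h1
  have hVc : ∀ n, HasCompactSupport (V n) := fun n => HasCompactSupport.intro (hKc n) (hV0 n)
  have hVt : ∀ n, Tst Ω (V n) := by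
    intro n
    refine ⟨hVs n, hVc n, ?_⟩
    refine (closure_minimal ?_ (hKc n).isClosed).trans (fun x hx => hx.1)
    intro x hx
    by_contra hc
    exact hx (hV0 n x hc)
  have hVl : ∀ x ∈ Ω, ∀ᶠ n in atTop, V n =ᶠ[𝓝 x] v := by
    intro x hx
    have hs := hpos x hx
    have t1 : Tendsto (fun n : ℕ => ((n : ℝ) + 1) * (δ x / 2)) atTop atTop :=
      (tendsto_natCast_atTop_atTop.atTop_add tendsto_const_nhds).atTop_mul_const (by linarith)
    filter_upwards [t1.eventually_ge_atTop 2] with n h1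
    have e1 : ∀ᶠ y in 𝓝 x, δ x / 2 < δ y :=
      (hδ.continuousOn.continuousAt (hO.mem_nhds hx)).eventually (lt_mem_nhds (by linarith))
    filter_upwards [e1, hVe n x hx] with y g1 g2
    have hn : (0 : ℝ) < (n : ℝ) + 1 := by positivity
    rw [g2, ph_one n _ (h1.trans (mul_le_mul_of_nonneg_left g1.le hn.le)), one_mul]
  have hgr : ∀ n x, x ∈ Ω → gradient (V n) x - gradient v x =
      (ph n (δ x) - 1) • gradient v x + (v x * deriv (ph n) (δ x)) • gradient δ x := by
    intro n x hx
    have a1 : DifferentiableAt ℝ δ x :=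
      (hδ.contDiffAt (hO.mem_nhds hx)).differentiableAt (by simp)
    have a2 : DifferentiableAt ℝ v x :=
      (hv.contDiffAt (hO.mem_nhds hx)).differentiableAt (by simp)
    have a3 : HasFDerivAt (fun y => ph n (δ y)) (deriv (ph n) (δ x) • fderiv ℝ δ x) x :=
      HasDerivAt.comp_hasFDerivAt (h₂ := ph n) x
        ((ph_smooth n).differentiable (by simp) (δ x)).hasDerivAt a1.hasFDerivAt
    have a4 := (a3.mul a2.hasFDerivAt).fderiv
    have a5 : fderiv ℝ (V n) x = ph n (δ x) • fderiv ℝ v x +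
        v x • (deriv (ph n) (δ x) • fderiv ℝ δ x) := by
      rw [(hVe n x hx).fderiv_eq]
      exact a4
    unfold gradient
    rw [← map_sub, a5, ← map_smul, ← map_smul, ← map_add]
    congr 1
    rw [sub_smul, one_smul, mul_smul]
    abel
  have hab : ∀ n x, |ph n (δ x) - 1| ≤ 1 := by
    intro n x
    have := ph_nonneg n (δ x)
    have := ph_le_one n (δ x)
    rw [abs_le]
    constructor <;> linarith
  have d1 : ∀ n x, x ∈ Ω → ‖V n x - v x‖ ≤ ‖v x‖ := by
    intro n x hx
    have e1 : V n x = ph n (δ x) * v x := if_pos hx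
    have e2 : V n x - v x = (ph n (δ x) - 1) * v x := by
      rw [e1]
      ring
    rw [e2, norm_mul, Real.norm_eq_abs]
    calc |ph n (δ x) - 1| * ‖v x‖ ≤ 1 * ‖v x‖ :=
          mul_le_mul_of_nonneg_right (hab n x) (norm_nonneg _)
      _ = ‖v x‖ := one_mul _
  have d2 : ∀ n x, x ∈ Ω → ‖gradient (V n) x - gradient v x‖ ≤
      ‖gradient v x‖ + |C| * K * ‖gradient δ x‖ := by
    intro n x hx
    rw [hgr n x hx]
    refine (norm_add_le _ _).trans (add_le_add ?_ ?_)
    · rw [norm_smul, Real.norm_eq_abs]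
      calc |ph n (δ x) - 1| * ‖gradient v x‖ ≤ 1 * ‖gradient v x‖ :=
            mul_le_mul_of_nonneg_right (hab n x) (norm_nonneg _)
        _ = ‖gradient v x‖ := one_mul _
    · rw [norm_smul, Real.norm_eq_abs, abs_mul]
      apply mul_le_mul_of_nonneg_right _ (norm_nonneg _)
      have hs := hpos x hx
      have n3 : 0 ≤ |C| := abs_nonneg _
      calc |v x| * |deriv (ph n) (δ x)|
          ≤ (|C| * δ x) * |deriv (ph n) (δ x)| :=
            mul_le_mul_of_nonneg_right ((hbd x hx).trans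
              (mul_le_mul_of_nonneg_right (le_abs_self C) hs.le)) (abs_nonneg _)
        _ = |C| * (δ x * |deriv (ph n) (δ x)|) := by ring
        _ ≤ |C| * K := mul_le_mul_of_nonneg_left (hKb n (δ x) hs) n3
  have hae : ∀ᵐ x ∂(mu Ω), x ∈ Ω := ae_restrict_mem hO.measurableSet
  haveI : IsFiniteMeasureOnCompacts (mu Ω) := by
    unfold mu
    infer_instance
  have m3 : ∀ n, MemLp (V n) 2 (mu Ω) := fun n =>
    (hVs n).continuous.memLp_of_hasCompactSupport (hVc n)
  have m4 : ∀ n, MemLp (gradient (V n)) 2 (mu Ω) := by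
    intro n
    have c1 : Continuous (gradient (V n)) := by
      unfold gradient
      exact (LinearIsometryEquiv.continuous _).comp ((hVs n).continuous_fderiv (by simp))
    have c2 : HasCompactSupport (gradient (V n)) := by
      unfold gradient
      exact ((hVc n).fderiv (𝕜 := ℝ)).comp_left (map_zero _)
    exact c1.memLp_of_hasCompactSupport c2
  have l1 := lp_lim (μ := mu Ω) V v m3 mv (fun x => ‖v x‖) mv.norm
    (fun n => by filter_upwards [hae] with x hx using d1 n x hx)
    (by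
      filter_upwards [hae] with x hx
      refine tendsto_const_nhds.congr' ?_
      filter_upwards [hVl x hx] with n hn
      exact hn.eq_of_nhds.symm)
  have l2 := lp_lim (μ := mu Ω) (fun n => gradient (V n)) (gradient v) m4 mg
    (fun x => ‖gradient v x‖ + |C| * K * ‖gradient δ x‖) (mg.norm.add (mδ.norm.const_mul _))
    (fun n => by filter_upwards [hae] with x hx using d2 n x hx)
    (by
      filter_upwards [hae] with x hx
      refine tendsto_const_nhds.congr' ?_
      filter_upwards [hVl x hx] with n hn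
      exact hn.gradient.eq_of_nhds.symm)
  refine ⟨mv.toLp v, mg.toLp (gradient v), ?_, mv.coeFn_toLp, mg.coeFn_toLp⟩
  refine mem_closure_of_tendsto (l1.prodMk_nhds l2) (Eventually.of_forall fun n => ?_)
  exact ⟨V n, hVt n, (m3 n).coeFn_toLp, (m4 n).coeFn_toLp⟩

end

end Pool.Agent.BES.H62
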